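import Pool.Agent.H22.HMS.GCD
import Pool.Agent.H22.HMS.QMK
import Pool.Agent.H24.HMS.QSUM
import Pool.Agent.H34.HMS.QSZ
import Pool.Agent.H70.HMS.QOP
import Pool.Agent.H83.HMS.ZDIV
import Pool.Agent.H87.HMS.ZADD
import Pool.Agent.H87.HMS.ZMUL
import Pool.Agent.H91.HMS.RLib

/-!
# HMS: polynomial time lemmas for rationals, vectors and matrices, tagged `fun_prop`
-/

set_option autoImplicit false
set_option maxHeartbeats 4000000

namespace Pool.HMS

open TMLib Finset Polynomial

theorem plib_qops : QOps :=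
  qop_thm zadd_thm zmul_thm zdiv_thm (qmk_thm zmul_thm zdiv_thm (gcd_thm zadd_thm zmul_thm zdiv_thm))

theorem plib_qsz : QSz := qsz_thm

theorem plib_qsums : QSums := qsum_thm plib_qops plib_qsz

section

variable {α β : Type} [Enc α] [Enc β]

@[fun_prop] lemma ptime_qadd {f g : α → ℚ} (hf : PTime f) (hg : PTime g) :
    PTime (fun x => f x + g x) :=
  PTime.comp2 (g := fun a b : ℚ => a + b) plib_qops.add hf hg

@[fun_prop] lemma ptime_qmul {f g : α → ℚ} (hf : PTime f) (hg : PTime g) :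
    PTime (fun x => f x * g x) :=
  PTime.comp2 (g := fun a b : ℚ => a * b) plib_qops.mul hf hg

@[fun_prop] lemma ptime_qneg {f : α → ℚ} (hf : PTime f) : PTime (fun x => -f x) :=
  plib_qops.neg.comp hf

@[fun_prop] lemma ptime_qinv {f : α → ℚ} (hf : PTime f) : PTime (fun x => (f x)⁻¹) :=
  plib_qops.inv.comp hf

@[fun_prop] lemma ptime_qsub {f g : α → ℚ} (hf : PTime f) (hg : PTime g) :
    PTime (fun x => f x - g x) :=
  (ptime_qadd hf (ptime_qneg hg)).congr fun x => sub_eq_add_neg _ _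

@[fun_prop] lemma ptime_qdiv {f g : α → ℚ} (hf : PTime f) (hg : PTime g) :
    PTime (fun x => f x / g x) :=
  (ptime_qmul hf (ptime_qinv hg)).congr fun x => div_eq_mul_inv _ _

@[fun_prop] lemma ptime_qle {f g : α → ℚ} (hf : PTime f) (hg : PTime g) :
    PTime (fun x => decide (f x ≤ g x)) :=
  PTime.comp2 (g := fun a b : ℚ => decide (a ≤ b)) plib_qops.le hf hg

@[fun_prop] lemma ptime_qlt {f g : α → ℚ} (hf : PTime f) (hg : PTime g) :
    PTime (fun x => decide (f x < g x)) :=
  (PTime.not (ptime_qle hg hf)).congr fun x => by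
    by_cases h : f x < g x
    · simp [h]
    · simp [h, not_lt.1 h]

@[fun_prop] lemma ptime_qfloor {f : α → ℚ} (hf : PTime f) : PTime (fun x => ⌊f x⌋) :=
  plib_qops.floor.comp hf

@[fun_prop] lemma ptime_zcast {f : α → ℤ} (hf : PTime f) : PTime (fun x => (f x : ℚ)) :=
  plib_qops.cast.comp hf

@[fun_prop] lemma ptime_ncast {f : α → ℕ} (hf : PTime f) : PTime (fun x => (f x : ℚ)) :=
  (ptime_zcast (ptime_ofNat hf)).congr fun x => by simp

@[fun_prop] lemma ptime_qceil {f : α → ℚ} (hf : PTime f) : PTime (fun x => ((⌈f x⌉ : ℤ) : ℚ)) :=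
  (ptime_qneg (ptime_zcast (ptime_qfloor (ptime_qneg hf)))).congr fun x => by
    rw [Int.floor_neg]; simp

@[fun_prop] lemma ptime_qabs {f : α → ℚ} (hf : PTime f) : PTime (fun x => |f x|) := by
  have h : PTime (fun x => if f x ≤ 0 then -f x else f x) :=
    PTime.ite (ptime_qle hf (PTime.const 0)) (ptime_qneg hf) hf
  refine h.congr fun x => ?_
  split_ifs with h
  · exact abs_of_nonpos h
  · exact abs_of_nonneg (not_le.1 h).le

@[fun_prop] lemma ptime_qmax {f g : α → ℚ} (hf : PTime f) (hg : PTime g) :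
    PTime (fun x => max (f x) (g x)) := by
  have h : PTime (fun x => if f x ≤ g x then g x else f x) :=
    PTime.ite (ptime_qle hf hg) hg hf
  refine h.congr fun x => ?_
  split_ifs with h
  · exact max_eq_right h
  · exact max_eq_left (not_le.1 h).le

@[fun_prop] lemma ptime_qmin {f g : α → ℚ} (hf : PTime f) (hg : PTime g) :
    PTime (fun x => min (f x) (g x)) := by
  have h : PTime (fun x => if f x ≤ g x then f x else g x) :=
    PTime.ite (ptime_qle hf hg) hf hg
  refine h.congr fun x => ?_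
  split_ifs with h
  · exact min_eq_left h
  · exact min_eq_right (not_le.1 h).le

/-- powers, exponent in unary -/
@[fun_prop] lemma ptime_qpow {f : α → ℚ} {n : α → ℕ} (hf : PTime f) (hn : PTime n) :
    PTime (fun x => f x ^ n x) :=
  PTime.comp2 (g := fun (a : ℚ) (k : ℕ) => a ^ k) plib_qsums.pow hf hn

@[fun_prop] lemma ptime_qsum {f : α → List ℚ} (hf : PTime f) : PTime (fun x => (f x).sum) :=
  plib_qsums.sum.comp hf

@[fun_prop] lemma ptime_qprod {f : α → List ℚ} (hf : PTime f) : PTime (fun x => (f x).prod) :=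
  plib_qsums.prod.comp hf

@[fun_prop] lemma ptime_qb {f : α → ℚ} (hf : PTime f) : PTime (fun x => qb (f x)) :=
  plib_qsums.bits.comp hf

/-! ### vectors and matrices -/

@[fun_prop] lemma ptime_fn {v : α → Vec} {i : α → ℕ} (hv : PTime v) (hi : PTime i) :
    PTime (fun x => fn (v x) (i x)) := PTime.listGetD hv hi (PTime.const 0)

@[fun_prop] lemma ptime_ent {m : α → Mat} {i j : α → ℕ} (hm : PTime m) (hi : PTime i)
    (hj : PTime j) : PTime (fun x => ent (m x) (i x) (j x)) :=
  ptime_fn (PTime.listGetD hm hi (PTime.const [])) hj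

@[fun_prop] lemma ptime_tab {n : α → ℕ} {f : α → ℕ → ℚ} (hn : PTime n)
    (hf : PTime (fun p : α × ℕ => f p.1 p.2)) : PTime (fun x => tab (n x) (f x)) :=
  PTime.map (PTime.range hn) hf

@[fun_prop] lemma ptime_tabM {n m : α → ℕ} {f : α → ℕ → ℕ → ℚ} (hn : PTime n) (hm : PTime m)
    (hf : PTime (fun p : (α × ℕ) × ℕ => f p.1.1 p.1.2 p.2)) :
    PTime (fun x => tabM (n x) (m x) (f x)) :=
  PTime.map (g := fun x i => tab (m x) (f x i)) (PTime.range hn)
    (ptime_tab (f := fun (p : α × ℕ) j => f p.1 p.2 j) (hm.comp (PTime.fst PTime.id)) hf)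

lemma sum_range_eq (n : ℕ) (f : ℕ → ℚ) : ∑ i ∈ range n, f i = ((List.range n).map f).sum := by
  induction n with
  | zero => simp
  | succ n ih => rw [Finset.sum_range_succ, ih, List.range_succ]; simp

lemma prod_range_eq (n : ℕ) (f : ℕ → ℚ) : ∏ i ∈ range n, f i = ((List.range n).map f).prod := by
  induction n with
  | zero => simp
  | succ n ih => rw [Finset.prod_range_succ, ih, List.range_succ]; simp

@[fun_prop] lemma ptime_finsum {n : α → ℕ} {f : α → ℕ → ℚ} (hn : PTime n)
    (hf : PTime (fun p : α × ℕ => f p.1 p.2)) : PTime (fun x => ∑ i ∈ range (n x), f x i) :=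
  (ptime_qsum (PTime.map (PTime.range hn) hf)).congr fun x => sum_range_eq _ _

@[fun_prop] lemma ptime_finprod {n : α → ℕ} {f : α → ℕ → ℚ} (hn : PTime n)
    (hf : PTime (fun p : α × ℕ => f p.1 p.2)) : PTime (fun x => ∏ i ∈ range (n x), f x i) :=
  (ptime_qprod (PTime.map (PTime.range hn) hf)).congr fun x => prod_range_eq _ _

@[fun_prop] lemma ptime_sumTo {n : α → ℕ} {f : α → ℕ → ℚ} (hn : PTime n)
    (hf : PTime (fun p : α × ℕ => f p.1 p.2)) : PTime (fun x => sumTo (n x) (f x)) :=
  ptime_qsum (PTime.map (PTime.range hn) hf)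

/-- sums over the members of `range n` that satisfy a condition -/
lemma ptime_sumfilter {n : α → ℕ} {c : α → ℕ → Prop} [∀ x i, Decidable (c x i)] {f : α → ℕ → ℚ}
    (hn : PTime n) (hc : PTime (fun p : α × ℕ => decide (c p.1 p.2)))
    (hf : PTime (fun p : α × ℕ => f p.1 p.2)) :
    PTime (fun x => ∑ i ∈ (range (n x)).filter (c x), f x i) := by
  have h : PTime (fun x => ∑ i ∈ range (n x), if c x i then f x i else 0) :=
    ptime_finsum (f := fun x i => if c x i then f x i else 0) hn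
      (PTime.ite (c := fun p : α × ℕ => c p.1 p.2) hc hf (PTime.const 0))
  exact h.congr fun x => Finset.sum_filter _ _

@[fun_prop] lemma ptime_lin {n : α → ℕ} {s y : α → ℕ → ℚ} (hn : PTime n)
    (hs : PTime (fun p : α × ℕ => s p.1 p.2)) (hy : PTime (fun p : α × ℕ => y p.1 p.2)) :
    PTime (fun x => lin (n x) (s x) (y x)) :=
  ptime_finsum (f := fun x i => s x i * y x i) hn (ptime_qmul hs hy)

@[fun_prop] lemma ptime_aff {n : α → ℕ} {s y : α → ℕ → ℚ} (hn : PTime n)
    (hs : PTime (fun p : α × ℕ => s p.1 p.2)) (hy : PTime (fun p : α × ℕ => y p.1 p.2)) :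
    PTime (fun x => aff (n x) (s x) (y x)) := by
  have h0 : PTime (fun x => s x 0) :=
    hs.comp (f := fun x : α => (x, 0)) (PTime.pair PTime.id (PTime.const 0))
  have h1 : PTime (fun p : α × ℕ => s p.1 (p.2 + 1)) :=
    hs.comp (f := fun p : α × ℕ => (p.1, p.2 + 1))
      (PTime.pair (PTime.fst PTime.id) (PTime.succ (PTime.snd PTime.id)))
  exact ptime_qadd h0 (ptime_finsum (f := fun x i => s x (i + 1) * y x i) hn (ptime_qmul h1 hy))

end

example : PTime (fun p : ℕ × Mat × Vec => tab p.1 fun i =>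
    ∑ j ∈ range p.1, ent p.2.1 i j * fn p.2.2 j) := by fun_prop

example : PTime (fun p : ℕ × Mat × Mat => tabM p.1 p.1 fun i j =>
    ∑ k ∈ range p.1, ent p.2.1 i k * ent p.2.2 j k) := by fun_prop

example : PTime (fun p : ℕ × Mat × Vec => aff p.1 (ent p.2.1 0) (fn p.2.2)) := by fun_prop

example : PTime (fun p : ℕ × Mat × Vec => decide (|∑ i ∈ range p.1, fn p.2.2 i| < 1 / 2)) := by
  fun_prop

end Pool.HMS
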