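import Pool.Agent.H52.HMS.LAux

/-!
# HMS box 1 (LLL): assembly
-/

set_option autoImplicit false

namespace Pool.HMS

open TMLib Finset

theorem growth_aux (D m : ℕ) (X : ℚ) (hD : 1 ≤ D) (hm : 1 ≤ m) (hX : 1 ≤ X) :
    (D.factorial : ℚ) * (D * (m * X ^ 2)) ^ D ≤ (D * m * X + 2) ^ (4 * D + 4) := by
  have hD' : (1 : ℚ) ≤ D := by exact_mod_cast hD
  have hm' : (1 : ℚ) ≤ m := by exact_mod_cast hm
  have h1 : (D.factorial : ℚ) ≤ (D : ℚ) ^ D := by exact_mod_cast Nat.factorial_le_pow D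
  have h2 : (D.factorial : ℚ) * (D * (m * X ^ 2)) ^ D ≤ ((D * m * X + 2) ^ 2) ^ D := by
    calc (D.factorial : ℚ) * (D * (m * X ^ 2)) ^ D
        ≤ (D : ℚ) ^ D * (D * (m * X ^ 2)) ^ D := by
          refine mul_le_mul_of_nonneg_right h1 ?_
          positivity
      _ = (D * (D * (m * X ^ 2))) ^ D := by rw [← mul_pow]
      _ ≤ ((D * m * X + 2) ^ 2) ^ D := by
          refine pow_le_pow_left₀ (by positivity) ?_ _
          have h3 : (D : ℚ) * (D * (m * X ^ 2)) ≤ (D * m * X) ^ 2 := by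
            have : (D * m * X : ℚ) ^ 2 - D * (D * (m * X ^ 2)) = D ^ 2 * m * X ^ 2 * (m - 1) := by
              ring
            have h4 : (0 : ℚ) ≤ D ^ 2 * m * X ^ 2 * (m - 1) := by
              have : (0 : ℚ) ≤ m - 1 := by linarith
              positivity
            linarith
          refine h3.trans ?_
          refine pow_le_pow_left₀ (by positivity) (by linarith) _
  refine h2.trans ?_
  rw [← pow_mul]
  refine pow_le_pow_right₀ ?_ (by omega)
  have : (0 : ℚ) ≤ D * m * X := by positivity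
  linarith

theorem pot_aux (D m z : ℕ) :
    ((m : ℚ) * (2 ^ z) ^ 2) ^ D ^ 2 < (4 / 3) ^ (3 * D ^ 2 * (m + 2 * z) + 1) := by
  have h1 : (m : ℚ) ≤ 2 ^ m := by exact_mod_cast Nat.lt_two_pow_self.le
  have h2 : ((m : ℚ) * (2 ^ z) ^ 2) ^ D ^ 2 ≤ 2 ^ (D ^ 2 * (m + 2 * z)) := by
    calc ((m : ℚ) * (2 ^ z) ^ 2) ^ D ^ 2 ≤ (2 ^ m * (2 ^ z) ^ 2) ^ D ^ 2 := by
          refine pow_le_pow_left₀ (by positivity) ?_ _
          exact mul_le_mul_of_nonneg_right h1 (by positivity)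
      _ = 2 ^ (D ^ 2 * (m + 2 * z)) := by
          rw [← pow_mul, ← pow_add, ← pow_mul]
          congr 1
          ring
  refine h2.trans_lt ?_
  have h3 : (4 / 3 : ℚ) ^ (3 * D ^ 2 * (m + 2 * z) + 1) =
      ((4 / 3) ^ 3) ^ (D ^ 2 * (m + 2 * z)) * (4 / 3) := by
    rw [pow_succ, ← pow_mul]
    congr 2
    ring
  rw [h3]
  have h4 : (2 : ℚ) ^ (D ^ 2 * (m + 2 * z)) ≤ ((4 / 3) ^ 3) ^ (D ^ 2 * (m + 2 * z)) :=
    pow_le_pow_left₀ (by norm_num) (by norm_num) _
  have h5 : (0 : ℚ) < ((4 / 3) ^ 3) ^ (D ^ 2 * (m + 2 * z)) := by positivity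
  nlinarith

theorem lasm_thm (hgrm : S_LGRM) (hin0 : S_LIN0) (hpas : S_LPAS) (hmac : S_LMAC)
    (hter : S_LTER) (hdgr : S_LDGR) (hcra : S_LCRA) (hflt : S_LFLT) (hthk : S_LTHK)
    (hsea : S_LSEA) (hncl : S_LNCL) (hpt : S_LPT3) : S_LLL := by
  refine ⟨lllA, hpt, fun D m B h X hD hint hX hbd hind hh => ?_⟩
  have hv : LVal D m B X := ⟨hD, hint, hX, hbd, hind⟩
  have hv' : LVal D m B (2 ^ sz B) :=
    ⟨hD, hint, one_le_pow₀ (by norm_num), fun i j => abs_ent_le B i j, hind⟩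
  have hm : 1 ≤ m := (hgrm D m B X _ _ hv (hin0 D m B X hv).2.1.uni).1
  have e1 : ∀ n, LInv D m B (2 ^ sz B) ((macS D m B)^[n] (lId D)) ∧
      (macA D m B)^[n] (lId D) = (macS D m B)^[n] (lId D) := by
    intro n
    induction n with
    | zero => exact ⟨(hin0 D m B _ hv').2.1, rfl⟩
    | succ n ih =>
      rw [Function.iterate_succ_apply', Function.iterate_succ_apply', ih.2]
      exact ⟨(hmac D m B _ _ hv' ih.1).1, (hncl D m B _ hv' ih.1).2⟩
  have e1' : ∀ n, LInv D m B X ((macS D m B)^[n] (lId D)) := by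
    intro n
    induction n with
    | zero => exact (hin0 D m B _ hv).2.1
    | succ n ih =>
      rw [Function.iterate_succ_apply']
      exact (hmac D m B _ _ hv ih).1
  have e2 : lEnd D m B = passS D m B ((macS D m B)^[lN D m B] (lId D)) := by
    unfold lEnd
    rw [(e1 _).2]
    exact (hncl D m B _ hv' (e1 _).1).1
  have e3 : LInv D m B X (lEnd D m B) := by
    rw [e2]
    exact (hpas D m B X _ hv (e1' _)).2.1
  have e4 : LRed D (gr D m B (lEnd D m B).1) := by
    rw [e2]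
    refine (hter D m B _ (lId D) (lN D m B) hv' (hin0 D m B _ hv').2.1 ?_).2
    exact (hin0 D m B _ hv').2.2.trans_lt (pot_aux D m (sz B))
  have e5 : LDL D (gr D m B (lEnd D m B).1) (mu (gr D m B (lEnd D m B).1))
      (rr (gr D m B (lEnd D m B).1)) := (hgrm D m B X _ _ hv e3.uni).2.2.2.2
  have e6 : seA D m B (lEnd D m B).1 (D - 1) (D - 1) (D - 1) =
      rr (gr D m B (lEnd D m B).1) (D - 1) :=
    hsea D m B X _ _ hv e3.uni (D - 1) (by omega) (D - 1) (by omega) (D - 1) (by omega)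
  have e7 := hthk D _ hD e5 e4
  have hfl : (lllA (D, m, B, h)).1 = decide (h ≤ rr (gr D m B (lEnd D m B).1) (D - 1)) := by
    change decide (h ≤ seA D m B (lEnd D m B).1 (D - 1) (D - 1) (D - 1)) = _
    rw [e6]
  have hs : (lllA (D, m, B, h)).2 = lEnd D m B := rfl
  rw [hfl, hs]
  refine ⟨e3.uni, ?_, ?_, ?_, ?_⟩
  · intro hf x hx
    rw [decide_eq_true_eq] at hf
    refine le_trans ?_ (hflt D m B _ _ _ _ hD e3.uni e5 x hx)
    exact mul_le_mul_of_nonneg_right hf (sq_nonneg _)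
  · intro hf i hi
    rw [decide_eq_false_iff_not, not_le] at hf
    have h1 := e7.1 i hi
    have h2 : ∑ k ∈ range m, (∑ c ∈ range D, ent (lEnd D m B).1 i c * ent B c k) ^ 2 =
        gr D m B (lEnd D m B).1 i i := by
      unfold gr bas
      exact Finset.sum_congr rfl fun k _ => by ring
    rw [h2]
    refine h1.trans ?_
    exact mul_le_mul_of_nonneg_left hf.le (by positivity)
  · intro hf
    rw [decide_eq_false_iff_not, not_le] at hf
    rw [hdgr D m B _ _ _ _ e3.uni e5]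
    refine e7.2.trans ?_
    have h0 := e5.pos (D - 1) (by omega)
    refine pow_le_pow_left₀ (by positivity) ?_ _
    exact mul_le_mul_of_nonneg_left hf.le (by positivity)
  · intro i j
    have h1 := hcra D m B X (D * (m * X ^ 2)) _ _ hv e3.uni (by
      have : (1 : ℚ) ≤ D := by exact_mod_cast hD
      have h2 : (0 : ℚ) ≤ m * X ^ 2 := by positivity
      nlinarith) e3.nb i j
    have h2 := growth_aux D m X hD hm hX
    exact ⟨h1.1.trans h2, h1.2.trans h2⟩

end Pool.HMS
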