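import Pool.Agent.H52.HMS.LBase
import Pool.Agent.H52.HMS.PLib

/-!
# HMS box 1 (LLL): size reduction and exchange are polynomial time
-/

set_option autoImplicit false
set_option maxHeartbeats 4000000

namespace Pool.HMS

open TMLib Finset Polynomial

section

variable {α : Type} [Enc α]

lemma ptime_seA (h : S_LPT1) {D m k i j : α → ℕ} {B U : α → Mat} (hD : PTime D) (hm : PTime m)
    (hB : PTime B) (hU : PTime U) (hk : PTime k) (hi : PTime i) (hj : PTime j) :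
    PTime (fun x => seA (D x) (m x) (B x) (U x) (k x) (i x) (j x)) := by
  have h1 : PTime (fun x => grA (D x) (m x) (B x) (U x)) :=
    PTime.comp (g := fun p : ℕ × ℕ × Mat × Mat => grA p.1 p.2.1 p.2.2.1 p.2.2.2) h.2
      (f := fun x => (D x, m x, B x, U x)) (by fun_prop)
  have h2 : PTime (fun x => schA (D x) (grA (D x) (m x) (B x) (U x)) (k x)) :=
    PTime.comp (g := fun p : ℕ × Mat × ℕ => schA p.1 p.2.1 p.2.2) h.1
      (f := fun x => (D x, grA (D x) (m x) (B x) (U x), k x)) (by fun_prop)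
  exact ptime_ent h2 hi hj

@[fun_prop] lemma ptime_tr {k a : α → ℕ} (hk : PTime k) (ha : PTime a) :
    PTime (fun x => tr (k x) (a x)) := by
  unfold tr
  fun_prop

lemma ptime_lop {D i j : α → ℕ} {c : α → ℚ} {s : α → Mat × Mat} (hD : PTime D) (hi : PTime i)
    (hj : PTime j) (hc : PTime c) (hs : PTime s) :
    PTime (fun x => lop (D x) (i x) (j x) (c x) (s x)) := by
  unfold lop
  fun_prop

lemma ptime_lsw {D k : α → ℕ} {s : α → Mat × Mat} (hD : PTime D) (hk : PTime k) (hs : PTime s) :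
    PTime (fun x => lsw (D x) (k x) (s x)) := by
  unfold lsw
  fun_prop

end

theorem lpt2_thm (h : S_LPT1) : S_LPT2 := by
  constructor
  · have h1 : PTime (fun p : (ℕ × ℕ × Mat) × (Mat × Mat) × (ℕ × ℕ) =>
        seA p.1.1 p.1.2.1 p.1.2.2 p.2.1.1 p.2.2.2 p.2.2.1 p.2.2.2) := by
      apply ptime_seA h <;> fun_prop
    have h2 : PTime (fun p : (ℕ × ℕ × Mat) × (Mat × Mat) × (ℕ × ℕ) =>
        seA p.1.1 p.1.2.1 p.1.2.2 p.2.1.1 p.2.2.2 p.2.2.2 p.2.2.2) := by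
      apply ptime_seA h <;> fun_prop
    have h3 := ptime_qdiv h1 h2
    have h4 : PTime (fun p : (ℕ × ℕ × Mat) × (Mat × Mat) × (ℕ × ℕ) =>
        lop p.1.1 p.2.2.1 p.2.2.2
          ((⌊seA p.1.1 p.1.2.1 p.1.2.2 p.2.1.1 p.2.2.2 p.2.2.1 p.2.2.2 /
            seA p.1.1 p.1.2.1 p.1.2.2 p.2.1.1 p.2.2.2 p.2.2.2 p.2.2.2 + 1 / 2⌋ : ℤ) : ℚ) p.2.1) := by
      apply ptime_lop
      · fun_prop
      · fun_prop
      · fun_prop
      · exact ptime_zcast (ptime_qfloor (ptime_qadd h3 (PTime.const _)))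
      · fun_prop
    unfold srA
    refine PTime.ite ?_ ?_ h4
    · exact ptime_qle (ptime_qabs h3) (PTime.const _)
    · fun_prop
  · have h1 : PTime (fun p : ((ℕ × ℕ × Mat) × (Mat × Mat)) × ℕ =>
        seA p.1.1.1 p.1.1.2.1 p.1.1.2.2 p.1.2.1 p.2 (p.2 + 1) (p.2 + 1)) := by
      apply ptime_seA h <;> fun_prop
    have h2 : PTime (fun p : ((ℕ × ℕ × Mat) × (Mat × Mat)) × ℕ =>
        seA p.1.1.1 p.1.1.2.1 p.1.1.2.2 p.1.2.1 p.2 p.2 p.2) := by
      apply ptime_seA h <;> fun_prop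
    have h3 : PTime (fun p : (ℕ × ℕ × Mat) × (Mat × Mat) =>
        badA p.1.1 p.1.2.1 p.1.2.2 p.2) := by
      unfold badA
      refine PTime.filter (g := fun (p : (ℕ × ℕ × Mat) × (Mat × Mat)) k =>
        decide (seA p.1.1 p.1.2.1 p.1.2.2 p.2.1 k (k + 1) (k + 1) <
          3 / 4 * seA p.1.1 p.1.2.1 p.1.2.2 p.2.1 k k k)) (by fun_prop) ?_
      exact ptime_qlt h1 (ptime_qmul (PTime.const _) h2)
    have h4 : PTime (fun q : ((ℕ × ℕ × Mat) × (Mat × Mat)) × ℕ × List ℕ =>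
        lsw q.1.1.1 q.2.1 q.1.2) := by
      apply ptime_lsw <;> fun_prop
    refine (PTime.listCases (l := fun p : (ℕ × ℕ × Mat) × (Mat × Mat) =>
      badA p.1.1 p.1.2.1 p.1.2.2 p.2) (f := fun p => p.2)
      (g := fun p k _ => lsw p.1.1 k p.2) h3 (by fun_prop) h4).congr fun p => ?_
    unfold swA
    cases badA p.1.1 p.1.2.1 p.1.2.2 p.2 <;> rfl

end Pool.HMS
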