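import Pool.Agent.H7.HMS.LCRA
import Pool.Agent.H7.HMS.LPAS
import Pool.Agent.H11.HMS.LCLP
import Pool.Agent.H15.HMS.LSWR
import Pool.Agent.H22.HMS.LDET
import Pool.Agent.H22.HMS.LPDF
import Pool.Agent.H26.HMS.LNCL
import Pool.Agent.H26.HMS.LSZB
import Pool.Agent.H27.HMS.LTHK
import Pool.Agent.H31.HMS.LSWG
import Pool.Agent.H31.HMS.LUNI
import Pool.Agent.H33.HMS.LIN0
import Pool.Agent.H33.HMS.LSEA
import Pool.Agent.H34.HMS.LFLT
import Pool.Agent.H34.HMS.QSZ
import Pool.Agent.H70.HMS.LGRM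
import Pool.Agent.H70.HMS.LOPG
import Pool.Agent.H71.HMS.LMAC
import Pool.Agent.H78.HMS.LSCA
import Pool.Agent.H78.HMS.LTER
import Pool.Agent.H83.HMS.LCON
import Pool.Agent.H83.HMS.LSCH
import Pool.Agent.H95.HMS.LDGR
import Pool.Agent.H95.HMS.LNUM
import Pool.Agent.H52.HMS.LASM
import Pool.Agent.H52.HMS.LPTB

/-!
# HMS box 1: `S_LLL`, up to the polynomial time of the algorithm
-/

set_option autoImplicit false

namespace Pool.HMS

theorem lll_of_ptime (hpt : S_LPT3) : S_LLL := by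
  have lsch := lsch_thm
  have lcon := lcon_thm
  have lgrm := lgrm_thm lpdf_thm
  have ldet := ldet_thm lsch
  have luni := luni_thm
  have lin0 := lin0_thm luni lgrm
  have lpas := lpas_thm lsch ldet luni lgrm lopg_thm
  have lswr := lswr_thm lsch
  have lmac := lmac_thm lsch lcon luni lgrm lswg_thm lswr lpas
  have lter := lter_thm lgrm ldet lpas lmac
  have ldgr := ldgr_thm
  have lcra := lcra_thm lgrm ldgr
  have lsca := lsca_thm lsch ldet qsz_thm
  have lsea := lsea_thm lcon lgrm lsca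
  have lncl := lncl_thm luni lcra lpas lmac lszb_thm lsea lnum_thm
  exact lasm_thm lgrm lin0 lpas lmac lter ldgr lcra lflt_thm (lthk_thm lsch) lsea lncl hpt

end Pool.HMS
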