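import Pool.Agent.H52.HMS.LPTB

/-!
# HMS box 1 (LLL): the algorithm is polynomial time
-/

set_option autoImplicit false
set_option maxHeartbeats 4000000

namespace Pool.HMS

open TMLib Finset Polynomial

lemma ptime_pairs {α : Type} [Enc α] {D : α → ℕ} (hD : PTime D) : PTime (fun x => pairs (D x)) := by
  unfold pairs
  fun_prop

theorem lpt3_thm (h1 : S_LCLP) (h2 : S_LPT1) (h3 : S_LPT2) : S_LPT3 := by
  -- one pass
  have hp : PTime (fun p : (ℕ × ℕ × Mat) × (Mat × Mat) => passA p.1.1 p.1.2.1 p.1.2.2 p.2) := by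
    have hf : PTime (fun q : ((ℕ × ℕ × Mat) × (Mat × Mat)) × (Mat × Mat) × (ℕ × ℕ) =>
        srA q.1.1.1 q.1.1.2.1 q.1.1.2.2 q.2.1 q.2.2) :=
      PTime.comp (g := fun p : (ℕ × ℕ × Mat) × (Mat × Mat) × (ℕ × ℕ) =>
        srA p.1.1 p.1.2.1 p.1.2.2 p.2.1 p.2.2) h3.1
        (f := fun q : ((ℕ × ℕ × Mat) × (Mat × Mat)) × (Mat × Mat) × (ℕ × ℕ) => (q.1.1, q.2))
        (by fun_prop)
    have hK : PTime (fun p : (ℕ × ℕ × Mat) × (Mat × Mat) => kP p.1.1 p.1.2.1 p.1.2.2) := by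
      unfold kP
      fun_prop
    exact h1.2 ((ℕ × ℕ × Mat) × (Mat × Mat)) (Mat × Mat) (ℕ × ℕ)
      (fun p s q => srA p.1.1 p.1.2.1 p.1.2.2 s q) (fun p => p.2) (fun p => pairs p.1.1)
      (fun p => kP p.1.1 p.1.2.1 p.1.2.2) ([], []) hf (by fun_prop)
      (ptime_pairs (by fun_prop)) hK
  -- all rounds
  have hm : PTime (fun a : ℕ × ℕ × Mat =>
      (macA a.1 a.2.1 a.2.2)^[lN a.1 a.2.1 a.2.2] (lId a.1)) := by
    have hf : PTime (fun q : (ℕ × ℕ × Mat) × (Mat × Mat) =>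
        swA q.1.1 q.1.2.1 q.1.2.2 (passA q.1.1 q.1.2.1 q.1.2.2 q.2)) :=
      PTime.comp (g := fun p : (ℕ × ℕ × Mat) × (Mat × Mat) => swA p.1.1 p.1.2.1 p.1.2.2 p.2) h3.2
        (f := fun q : (ℕ × ℕ × Mat) × (Mat × Mat) => (q.1, passA q.1.1 q.1.2.1 q.1.2.2 q.2))
        (PTime.pair (by fun_prop) hp)
    have hN : PTime (fun a : ℕ × ℕ × Mat => lN a.1 a.2.1 a.2.2) := by
      unfold lN
      fun_prop
    have hK : PTime (fun a : ℕ × ℕ × Mat => kP a.1 a.2.1 a.2.2) := by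
      unfold kP
      fun_prop
    have hI : PTime (fun a : ℕ × ℕ × Mat => lId a.1) := by
      unfold lId
      fun_prop
    exact h1.1 (ℕ × ℕ × Mat) (Mat × Mat)
      (fun a s => swA a.1 a.2.1 a.2.2 (passA a.1 a.2.1 a.2.2 s)) (fun a => lId a.1)
      (fun a => lN a.1 a.2.1 a.2.2) (fun a => kP a.1 a.2.1 a.2.2) ([], []) hf hI hN hK
  have he : PTime (fun a : ℕ × ℕ × Mat => lEnd a.1 a.2.1 a.2.2) :=
    PTime.comp (g := fun p : (ℕ × ℕ × Mat) × (Mat × Mat) => passA p.1.1 p.1.2.1 p.1.2.2 p.2) hp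
      (f := fun a : ℕ × ℕ × Mat => (a, (macA a.1 a.2.1 a.2.2)^[lN a.1 a.2.1 a.2.2] (lId a.1)))
      (PTime.pair (by fun_prop) hm)
  have he' : PTime (fun p : ℕ × ℕ × Mat × ℚ => lEnd p.1 p.2.1 p.2.2.1) :=
    PTime.comp (g := fun a : ℕ × ℕ × Mat => lEnd a.1 a.2.1 a.2.2) he
      (f := fun p : ℕ × ℕ × Mat × ℚ => (p.1, p.2.1, p.2.2.1)) (by fun_prop)
  have hs : PTime (fun p : ℕ × ℕ × Mat × ℚ => seA p.1 p.2.1 p.2.2.1
      (lEnd p.1 p.2.1 p.2.2.1).1 (p.1 - 1) (p.1 - 1) (p.1 - 1)) := by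
    apply ptime_seA h2
    · fun_prop
    · fun_prop
    · fun_prop
    · exact PTime.fst he'
    · fun_prop
    · fun_prop
    · fun_prop
  exact PTime.pair (ptime_qle (by fun_prop) hs) he'

end Pool.HMS
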