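import Pool.Agent.H34.HMS.LPTA
import Pool.Agent.H52.HMS.LAll
import Pool.Agent.H52.HMS.LPTC

/-!
# HMS box 1: lattice basis reduction in polynomial time
-/

set_option autoImplicit false

namespace Pool.HMS

/-- Box 1. -/
theorem s_lll : S_LLL :=
  lll_of_ptime (lpt3_thm lclp_thm (lpt1_thm lclp_thm) (lpt2_thm (lpt1_thm lclp_thm)))

end Pool.HMS
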