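import Pool.Agent.H52.HMS.LBase

/-!
# HMS box 1 (LLL): small lemmas on sizes of entries
-/

set_option autoImplicit false

namespace Pool.HMS

open TMLib Finset

/-- absolute value and number of bits -/
theorem abs_le_two_pow_qb (q : ℚ) : |q| ≤ 2 ^ qb q := by
  have h1 : |q| ≤ |(q.num : ℚ)| := by
    conv_lhs => rw [← Rat.num_div_den q]
    rw [abs_div]
    refine div_le_self (abs_nonneg _) ?_
    rw [Nat.abs_cast]
    exact_mod_cast q.den_pos
  refine h1.trans ?_
  have h2 : q.num.natAbs < 2 ^ Nat.size q.num.natAbs := Nat.lt_size_self _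
  have h3 : 2 ^ Nat.size q.num.natAbs ≤ 2 ^ qb q :=
    Nat.pow_le_pow_right (by norm_num) (le_max_left _ _)
  have h4 : |(q.num : ℚ)| = (q.num.natAbs : ℚ) := by
    rw [← Int.cast_abs, Int.abs_eq_natAbs]
    simp
  rw [h4]
  exact_mod_cast (h2.le.trans h3)

theorem sz_fn_le (v : Vec) (i : ℕ) : 2 * qb (fn v i) ≤ sz v + 1 := by
  by_cases hi : i < v.length
  · have h1 : fn v i = v[i] := by
      unfold fn
      rw [List.getD_eq_getElem?_getD, List.getElem?_eq_getElem hi]
      rfl
    rw [h1]
    have h2 := sz_le_of_mem (List.getElem_mem hi)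
    have h3 := qb_le_sz v[i]
    omega
  · rw [fn_of_le (by omega)]
    have : qb 0 = 1 := by
      unfold qb
      simp
    have h5 := sz_pos v
    omega

theorem sz_ent_le (m : Mat) (i j : ℕ) : 2 * qb (ent m i j) ≤ sz m + 1 := by
  unfold ent
  by_cases hi : i < m.length
  · have h1 : m.getD i [] = m[i] := by
      rw [List.getD_eq_getElem?_getD, List.getElem?_eq_getElem hi]
      rfl
    rw [h1]
    have h2 := sz_le_of_mem (List.getElem_mem hi)
    have h3 := sz_fn_le m[i] j
    omega
  · have h1 : m.getD i [] = [] := by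
      rw [List.getD_eq_getElem?_getD, List.getElem?_eq_none (by omega)]
      rfl
    rw [h1]
    have h3 := sz_fn_le [] j
    have h5 := sz_pos m
    simp only [sz_nil] at h3
    omega

theorem abs_ent_le (m : Mat) (i j : ℕ) : |ent m i j| ≤ 2 ^ sz m := by
  refine (abs_le_two_pow_qb _).trans ?_
  refine pow_le_pow_right₀ (by norm_num) ?_
  have := sz_ent_le m i j
  have := sz_pos m
  omega

end Pool.HMS
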