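import Pool.Agent.H91.HMS.RLib
import Pool.Agent.H48.HMS.Stm

/-!
# HMS box 1 (LLL): the algorithm and the statements of the modules

The state is a pair `(U, W)` of mutually inverse integer matrices (`Unimod`), the rows of `U` give
the current basis `b_i = ∑_c U_ic B_c`.  Everything else (Gram matrix, Gram-Schmidt data) is
recomputed from `U` whenever it is needed.  The Gram-Schmidt data are read off the Schur complements
`sch G k` of the Gram matrix.  All loops are clipped: a value whose code is too long is replaced by a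
default value; this makes `PTime` automatic, and `LSCA`, `LNCL` say that nothing is ever clipped when
the input is admissible.
-/

set_option autoImplicit false

namespace Pool.HMS

open TMLib Finset

/-- `s`, or a default value if the code of `s` is too long. -/
def clip {β : Type} [Enc β] (K : ℕ) (d s : β) : β := if sz s ≤ K then s else d

/-! ### Schur complements -/

/-- Schur complement of the leading `k × k` block. -/
def sch (G : ℕ → ℕ → ℚ) : ℕ → ℕ → ℕ → ℚ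
  | 0 => G
  | k + 1 => fun i j => sch G k i j - sch G k i k * sch G k k j / sch G k k k

/-- Squared length of the `k`-th Gram-Schmidt vector. -/
def rr (G : ℕ → ℕ → ℚ) (k : ℕ) : ℚ := sch G k k k

/-- Gram-Schmidt coefficients. -/
def mu (G : ℕ → ℕ → ℚ) (i k : ℕ) : ℚ := sch G k i k / sch G k k k

/-- `G = L r Lᵀ` on indices below `D`, `L` unit lower triangular, `r` positive. -/
structure LDL (D : ℕ) (G L : ℕ → ℕ → ℚ) (r : ℕ → ℚ) : Prop where
  one : ∀ i < D, L i i = 1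
  tri : ∀ i < D, ∀ l < D, i < l → L i l = 0
  pos : ∀ i < D, 0 < r i
  eq : ∀ i < D, ∀ j < D, G i j = ∑ l ∈ range D, L i l * r l * L j l

/-! ### Bases -/

/-- The `i`-th basis vector. -/
def bas (D : ℕ) (B U : Mat) (i k : ℕ) : ℚ := ∑ c ∈ range D, ent U i c * ent B c k

/-- The Gram matrix. -/
def gr (D m : ℕ) (B U : Mat) (i j : ℕ) : ℚ := ∑ k ∈ range m, bas D B U i k * bas D B U j k

/-- Admissible input. -/
structure LVal (D m : ℕ) (B : Mat) (X : ℚ) : Prop where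
  one : 1 ≤ D
  int : ∀ i j, IsI (ent B i j)
  ge : 1 ≤ X
  bd : ∀ i j, |ent B i j| ≤ X
  ind : ∀ x, Supp D x → (∀ k < m, ∑ c ∈ range D, x c * ent B c k = 0) → ∀ c, x c = 0

/-- `b_i ← b_i - c b_j`. -/
def lop (D i j : ℕ) (c : ℚ) (s : Mat × Mat) : Mat × Mat :=
  (tabM D D fun a b => if a = i then ent s.1 i b - c * ent s.1 j b else ent s.1 a b,
    tabM D D fun a b => if a = j then ent s.2 j b + c * ent s.2 i b else ent s.2 a b)

/-- Transposition of `k` and `k + 1`. -/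
def tr (k a : ℕ) : ℕ := if a = k then k + 1 else if a = k + 1 then k else a

/-- Exchange of `b_k` and `b_(k+1)`. -/
def lsw (D k : ℕ) (s : Mat × Mat) : Mat × Mat :=
  (tabM D D fun a b => ent s.1 (tr k a) b, tabM D D fun a b => ent s.2 (tr k a) b)

/-- Initial state. -/
def lId (D : ℕ) : Mat × Mat :=
  (tabM D D fun a b => if a = b then 1 else 0, tabM D D fun a b => if a = b then 1 else 0)

/-! ### The algorithm, without clipping -/

/-- One size reduction. -/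
def srS (D m : ℕ) (B : Mat) (s : Mat × Mat) (p : ℕ × ℕ) : Mat × Mat :=
  if |mu (gr D m B s.1) p.1 p.2| ≤ 1 / 2 then s
  else lop D p.1 p.2 ((⌊mu (gr D m B s.1) p.1 p.2 + 1 / 2⌋ : ℤ) : ℚ) s

/-- The pairs `(1,0), (2,1), (2,0), (3,2), (3,1), (3,0), …`. -/
def pairs (D : ℕ) : List (ℕ × ℕ) :=
  (List.range D).flatMap fun i => (List.range i).reverse.map fun j => (i, j)

/-- Complete size reduction. -/
def passS (D m : ℕ) (B : Mat) (s : Mat × Mat) : Mat × Mat := (pairs D).foldl (srS D m B) s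

/-- Indices where the condition of Lovasz fails. -/
def badS (D m : ℕ) (B : Mat) (s : Mat × Mat) : List ℕ :=
  (List.range (D - 1)).filter fun k =>
    decide (sch (gr D m B s.1) k (k + 1) (k + 1) < 3 / 4 * sch (gr D m B s.1) k k k)

/-- Exchange at the first bad index. -/
def swS (D m : ℕ) (B : Mat) (s : Mat × Mat) : Mat × Mat :=
  match badS D m B s with
  | [] => s
  | k :: _ => lsw D k s

/-- One round. -/
def macS (D m : ℕ) (B : Mat) (s : Mat × Mat) : Mat × Mat := swS D m B (passS D m B s)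

/-! ### The algorithm -/

/-- Size bound for the elimination. -/
def kS (D : ℕ) (G : Mat) : ℕ := 100 * (sz (D, G) + 1) ^ 4

/-- One step of the elimination. -/
def schStep (D : ℕ) (s : ℕ × Mat) : ℕ × Mat :=
  (s.1 + 1, tabM D D fun i j => ent s.2 i j - ent s.2 i s.1 * ent s.2 s.1 j / ent s.2 s.1 s.1)

/-- The `k`-th Schur complement. -/
def schA (D : ℕ) (G : Mat) (k : ℕ) : Mat :=
  ((fun s => clip (kS D G) (0, []) (schStep D s))^[k] (0, G)).2

/-- Gram matrix. -/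
def grA (D m : ℕ) (B U : Mat) : Mat := tabM D D (gr D m B U)

/-- Entry of a Schur complement of the Gram matrix. -/
def seA (D m : ℕ) (B U : Mat) (k i j : ℕ) : ℚ := ent (schA D (grA D m B U) k) i j

/-- One size reduction. -/
def srA (D m : ℕ) (B : Mat) (s : Mat × Mat) (p : ℕ × ℕ) : Mat × Mat :=
  if |seA D m B s.1 p.2 p.1 p.2 / seA D m B s.1 p.2 p.2 p.2| ≤ 1 / 2 then s
  else lop D p.1 p.2
    ((⌊seA D m B s.1 p.2 p.1 p.2 / seA D m B s.1 p.2 p.2 p.2 + 1 / 2⌋ : ℤ) : ℚ) s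

/-- Size bound for the states. -/
def kP (D m : ℕ) (B : Mat) : ℕ := 1000 * (sz (D, m, B) + 1) ^ 5

/-- Complete size reduction. -/
def passA (D m : ℕ) (B : Mat) (s : Mat × Mat) : Mat × Mat :=
  (pairs D).foldl (fun s p => clip (kP D m B) ([], []) (srA D m B s p)) s

/-- Indices where the condition of Lovasz fails. -/
def badA (D m : ℕ) (B : Mat) (s : Mat × Mat) : List ℕ :=
  (List.range (D - 1)).filter fun k =>
    decide (seA D m B s.1 k (k + 1) (k + 1) < 3 / 4 * seA D m B s.1 k k k)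

/-- Exchange at the first bad index. -/
def swA (D m : ℕ) (B : Mat) (s : Mat × Mat) : Mat × Mat :=
  match badA D m B s with
  | [] => s
  | k :: _ => lsw D k s

/-- One round. -/
def macA (D m : ℕ) (B : Mat) (s : Mat × Mat) : Mat × Mat :=
  clip (kP D m B) ([], []) (swA D m B (passA D m B s))

/-- Number of rounds. -/
def lN (D m : ℕ) (B : Mat) : ℕ := 3 * D ^ 2 * (m + 2 * sz B) + 1

/-- Final state. -/
def lEnd (D m : ℕ) (B : Mat) : Mat × Mat := passA D m B ((macA D m B)^[lN D m B] (lId D))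

/-- The algorithm. -/
def lllA (p : ℕ × ℕ × Mat × ℚ) : Bool × Mat × Mat :=
  (decide (p.2.2.2 ≤ seA p.1 p.2.1 p.2.2.1 (lEnd p.1 p.2.1 p.2.2.1).1 (p.1 - 1) (p.1 - 1) (p.1 - 1)),
    lEnd p.1 p.2.1 p.2.2.1)

/-! ### Invariants -/

/-- Invariant at the beginning of a round. -/
structure LInv (D m : ℕ) (B : Mat) (X : ℚ) (s : Mat × Mat) : Prop where
  uni : Unimod D s.1 s.2
  rb : ∀ l < D, rr (gr D m B s.1) l ≤ m * X ^ 2
  nb : ∀ i < D, gr D m B s.1 i i ≤ D * (m * X ^ 2)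

/-- Reduced bases. -/
structure LRed (D : ℕ) (G : ℕ → ℕ → ℚ) : Prop where
  red : ∀ i < D, ∀ l < i, |mu G i l| ≤ 1 / 2
  lov : ∀ k, k + 1 < D → 3 / 4 * rr G k ≤ sch G k (k + 1) (k + 1)

/-- The potential. -/
def pot (D : ℕ) (G : ℕ → ℕ → ℚ) : ℚ := ∏ k ∈ range D, ∏ l ∈ range (k + 1), rr G l

/-- Bound for the squared lengths during a size reduction. -/
def mid (D m : ℕ) (X : ℚ) : ℚ := 4 ^ D * D ^ 3 * (m * X ^ 2) ^ (2 * D + 1)

/-! ### Statements of the modules: pure mathematics -/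

/-- LSCH: Schur complements of `L r Lᵀ`; uniqueness. -/
def S_LSCH : Prop :=
  ∀ (D : ℕ) (G L : ℕ → ℕ → ℚ) (r : ℕ → ℚ), LDL D G L r →
    (∀ k ≤ D, ∀ i < D, ∀ j < D, sch G k i j = ∑ l ∈ Ico k D, L i l * r l * L j l) ∧
    (∀ k < D, rr G k = r k) ∧ ∀ i < D, ∀ k < D, mu G i k = L i k

/-- LCON: Schur complements depend only on the entries below `D`. -/
def S_LCON : Prop :=
  ∀ (D : ℕ) (G G' : ℕ → ℕ → ℚ), (∀ i < D, ∀ j < D, G i j = G' i j) →
    (∀ k ≤ D, ∀ i < D, ∀ j < D, sch G k i j = sch G' k i j) ∧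
    (∀ k < D, rr G k = rr G' k) ∧ ∀ i < D, ∀ k < D, mu G i k = mu G' i k

/-- LPDF: a positive definite symmetric matrix is `L r Lᵀ`. -/
def S_LPDF : Prop :=
  ∀ (D : ℕ) (G : ℕ → ℕ → ℚ), (∀ i < D, ∀ j < D, G i j = G j i) →
    (∀ x : ℕ → ℚ, (∃ i < D, x i ≠ 0) →
      0 < ∑ i ∈ range D, ∑ j ∈ range D, x i * x j * G i j) →
    LDL D G (mu G) (rr G)

/-- LDET: integrality and size of leading minors and bordered minors. -/
def S_LDET : Prop :=
  ∀ (D : ℕ) (G L : ℕ → ℕ → ℚ) (r : ℕ → ℚ) (M : ℚ), LDL D G L r →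
    (∀ i < D, ∀ j < D, IsI (G i j)) → 1 ≤ M → (∀ i < D, ∀ j < D, |G i j| ≤ M) →
    ∀ k ≤ D, IsI (∏ l ∈ range k, r l) ∧ 1 ≤ ∏ l ∈ range k, r l ∧
      ∏ l ∈ range k, r l ≤ k.factorial * M ^ k ∧
      ∀ i < D, ∀ j < D, IsI ((∏ l ∈ range k, r l) * sch G k i j) ∧
        |(∏ l ∈ range k, r l) * sch G k i j| ≤ (k + 1).factorial * M ^ (k + 1)

/-- LUNI: unimodularity of the states. -/
def S_LUNI : Prop :=
  (∀ D, Unimod D (lId D).1 (lId D).2) ∧
  (∀ (D i j : ℕ) (c : ℚ) (s : Mat × Mat), i < D → j < D → i ≠ j → IsI c → Unimod D s.1 s.2 →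
    Unimod D (lop D i j c s).1 (lop D i j c s).2) ∧
  ∀ (D k : ℕ) (s : Mat × Mat), k + 1 < D → Unimod D s.1 s.2 →
    Unimod D (lsw D k s).1 (lsw D k s).2

/-- LGRM: Gram matrices are integral, symmetric and positive definite. -/
def S_LGRM : Prop :=
  ∀ (D m : ℕ) (B : Mat) (X : ℚ) (U W : Mat), LVal D m B X → Unimod D U W →
    1 ≤ m ∧ (∀ i j, gr D m B U i j = gr D m B U j i) ∧ (∀ i j, IsI (gr D m B U i j)) ∧
    (∀ x : ℕ → ℚ, (∃ i < D, x i ≠ 0) →
      0 < ∑ i ∈ range D, ∑ j ∈ range D, x i * x j * gr D m B U i j) ∧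
    LDL D (gr D m B U) (mu (gr D m B U)) (rr (gr D m B U))

/-- LIN0: the initial state. -/
def S_LIN0 : Prop :=
  ∀ (D m : ℕ) (B : Mat) (X : ℚ), LVal D m B X →
    (∀ i < D, ∀ j < D, gr D m B (lId D).1 i j = ∑ k ∈ range m, ent B i k * ent B j k) ∧
    LInv D m B X (lId D) ∧ pot D (gr D m B (lId D).1) ≤ (m * X ^ 2) ^ D ^ 2

/-- LOPG: effect of a size reduction on the Gram-Schmidt data. -/
def S_LOPG : Prop :=
  ∀ (D m : ℕ) (B : Mat) (s : Mat × Mat) (L : ℕ → ℕ → ℚ) (r : ℕ → ℚ) (i j : ℕ) (c : ℚ),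
    LDL D (gr D m B s.1) L r → i < D → j < i →
    LDL D (gr D m B (lop D i j c s).1) (fun a l => if a = i then L i l - c * L j l else L a l) r

/-- LSWG: effect of an exchange on the Gram matrix. -/
def S_LSWG : Prop :=
  ∀ (D m : ℕ) (B : Mat) (s : Mat × Mat) (k : ℕ), k + 1 < D → ∀ a < D, ∀ b < D,
    gr D m B (lsw D k s).1 a b = gr D m B s.1 (tr k a) (tr k b)

/-- LSWR: effect of an exchange on the lengths of the Gram-Schmidt vectors. -/
def S_LSWR : Prop :=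
  ∀ (D : ℕ) (G : ℕ → ℕ → ℚ) (k : ℕ), LDL D G (mu G) (rr G) → k + 1 < D →
    rr (fun a b => G (tr k a) (tr k b)) k = sch G k (k + 1) (k + 1) ∧
    rr (fun a b => G (tr k a) (tr k b)) k * rr (fun a b => G (tr k a) (tr k b)) (k + 1) =
      rr G k * rr G (k + 1) ∧
    rr (fun a b => G (tr k a) (tr k b)) (k + 1) ≤ rr G k ∧
    ∀ l < D, l ≠ k → l ≠ k + 1 → rr (fun a b => G (tr k a) (tr k b)) l = rr G l

/-- LPAS: a complete size reduction. -/
def S_LPAS : Prop :=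
  ∀ (D m : ℕ) (B : Mat) (X : ℚ) (s : Mat × Mat), LVal D m B X → LInv D m B X s →
    (∀ l', l' <+: pairs D →
      Unimod D (l'.foldl (srS D m B) s).1 (l'.foldl (srS D m B) s).2 ∧
      (∀ l < D, rr (gr D m B (l'.foldl (srS D m B) s).1) l = rr (gr D m B s.1) l) ∧
      ∀ i < D, gr D m B (l'.foldl (srS D m B) s).1 i i ≤ mid D m X) ∧
    LInv D m B X (passS D m B s) ∧
    (∀ l < D, rr (gr D m B (passS D m B s).1) l = rr (gr D m B s.1) l) ∧
    ∀ i < D, ∀ l < i, |mu (gr D m B (passS D m B s).1) i l| ≤ 1 / 2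

/-- LMAC: one round. -/
def S_LMAC : Prop :=
  ∀ (D m : ℕ) (B : Mat) (X : ℚ) (s : Mat × Mat), LVal D m B X → LInv D m B X s →
    LInv D m B X (macS D m B s) ∧
    (LRed D (gr D m B (passS D m B s).1) ∨
      pot D (gr D m B (macS D m B s).1) ≤ 3 / 4 * pot D (gr D m B s.1))

/-- LTER: termination. -/
def S_LTER : Prop :=
  ∀ (D m : ℕ) (B : Mat) (X : ℚ) (s : Mat × Mat) (N : ℕ), LVal D m B X → LInv D m B X s →
    pot D (gr D m B s.1) < (4 / 3) ^ N →
    LInv D m B X ((macS D m B)^[N] s) ∧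
    LRed D (gr D m B (passS D m B ((macS D m B)^[N] s)).1)

/-- LDGR: the determinant of the Gram matrix. -/
def S_LDGR : Prop :=
  ∀ (D m : ℕ) (B U W : Mat) (L : ℕ → ℕ → ℚ) (r : ℕ → ℚ), Unimod D U W →
    LDL D (gr D m B U) L r →
    (Matrix.of fun c c' : Fin D => ∑ k ∈ range m, ent B c k * ent B c' k).det =
      ∏ l ∈ range D, r l

/-- LCRA: bound for the entries of `U` and `W` (Cramer). -/
def S_LCRA : Prop :=
  ∀ (D m : ℕ) (B : Mat) (X M : ℚ) (U W : Mat), LVal D m B X → Unimod D U W →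
    m * X ^ 2 ≤ M → (∀ i < D, gr D m B U i i ≤ M) →
    ∀ i j, |ent U i j| ≤ D.factorial * M ^ D ∧ |ent W i j| ≤ D.factorial * M ^ D

/-- LFLT: the last coordinate. -/
def S_LFLT : Prop :=
  ∀ (D m : ℕ) (B U W : Mat) (L : ℕ → ℕ → ℚ) (r : ℕ → ℚ), 1 ≤ D → Unimod D U W →
    LDL D (gr D m B U) L r → ∀ x, Supp D x →
    r (D - 1) * (∑ c ∈ range D, ent W (D - 1) c * x c) ^ 2 ≤
      ∑ k ∈ range m, (∑ c ∈ range D, x c * ent B c k) ^ 2

/-- LTHK: reduced bases. -/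
def S_LTHK : Prop :=
  ∀ (D : ℕ) (G : ℕ → ℕ → ℚ), 1 ≤ D → LDL D G (mu G) (rr G) → LRed D G →
    (∀ i < D, G i i ≤ D * 2 ^ (D - 1) * rr G (D - 1)) ∧
    ∏ l ∈ range D, rr G l ≤ (2 ^ (D - 1) * rr G (D - 1)) ^ D

/-! ### Statements of the modules: sizes -/

/-- LSZB: sizes of states. -/
def S_LSZB : Prop :=
  ∀ (D n : ℕ) (U W : Mat), Unimod D U W →
    (∀ i j, |ent U i j| ≤ 2 ^ n ∧ |ent W i j| ≤ 2 ^ n) →
    sz (U, W) ≤ 40 * (D + 1) ^ 2 * (n + 1)

/-- LSCA: the elimination is not clipped. -/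
def S_LSCA : Prop :=
  ∀ (D : ℕ) (G : Mat), LDL D (ent G) (mu (ent G)) (rr (ent G)) → (∀ i j, IsI (ent G i j)) →
    ∀ k ≤ D, ∀ i < D, ∀ j < D, ent (schA D G k) i j = sch (ent G) k i j

/-- LSEA: entries of the Schur complements of a Gram matrix. -/
def S_LSEA : Prop :=
  ∀ (D m : ℕ) (B : Mat) (X : ℚ) (U W : Mat), LVal D m B X → Unimod D U W →
    ∀ k ≤ D, ∀ i < D, ∀ j < D, seA D m B U k i j = sch (gr D m B U) k i j

/-- LNUM: the bounds of the states are small enough. -/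
def S_LNUM : Prop :=
  ∀ (D m : ℕ) (B : Mat), 1 ≤ D → 1 ≤ m → ∃ n : ℕ,
    ((D.factorial : ℚ) * mid D m (2 ^ sz B) ^ D ≤ 2 ^ n ∧
      (D.factorial : ℚ) * (D * (m * (2 ^ sz B) ^ 2)) ^ D ≤ 2 ^ n) ∧
    40 * (D + 1) ^ 2 * (n + 1) ≤ kP D m B

/-- LNCL: the rounds are not clipped. -/
def S_LNCL : Prop :=
  ∀ (D m : ℕ) (B : Mat) (s : Mat × Mat), LVal D m B (2 ^ sz B) → LInv D m B (2 ^ sz B) s →
    passA D m B s = passS D m B s ∧ macA D m B s = macS D m B s

/-! ### Statements of the modules: polynomial time -/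

/-- LCLP: clipped loops are polynomial time. -/
def S_LCLP : Prop :=
  (∀ (α β : Type) [Enc α] [Enc β] (f : α → β → β) (s : α → β) (n K : α → ℕ) (d : β),
    PTime (fun p : α × β => f p.1 p.2) → PTime s → PTime n → PTime K →
    PTime (fun a => (fun b => clip (K a) d (f a b))^[n a] (s a))) ∧
  ∀ (α β γ : Type) [Enc α] [Enc β] [Enc γ] (f : α → β → γ → β) (s : α → β) (l : α → List γ)
    (K : α → ℕ) (d : β),
    PTime (fun p : α × β × γ => f p.1 p.2.1 p.2.2) → PTime s → PTime l → PTime K →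
    PTime (fun a => (l a).foldl (fun b c => clip (K a) d (f a b c)) (s a))

/-- LPT1: elimination. -/
def S_LPT1 : Prop :=
  PTime (fun p : ℕ × Mat × ℕ => schA p.1 p.2.1 p.2.2) ∧
  PTime (fun p : ℕ × ℕ × Mat × Mat => grA p.1 p.2.1 p.2.2.1 p.2.2.2)

/-- LPT2: size reduction and exchange. -/
def S_LPT2 : Prop :=
  PTime (fun p : (ℕ × ℕ × Mat) × (Mat × Mat) × (ℕ × ℕ) => srA p.1.1 p.1.2.1 p.1.2.2 p.2.1 p.2.2) ∧
  PTime (fun p : (ℕ × ℕ × Mat) × (Mat × Mat) => swA p.1.1 p.1.2.1 p.1.2.2 p.2)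

/-- LPT3: the algorithm. -/
def S_LPT3 : Prop := PTime lllA

end Pool.HMS
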